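import Pool.Agent.H416Sens.Private

set_option autoImplicit false

open Finset

namespace Pool.Agent.H416Sens

variable {V : Type*} [DecidableEq V]

lemma lin_bound (r τ : ℕ) : (r : ℝ) ≤ 2 ^ r / 2 ^ τ + τ := by
  rcases Nat.le_total r τ with h | h
  · have h1 : (r : ℝ) ≤ τ := by exact_mod_cast h
    have : (0 : ℝ) ≤ 2 ^ r / 2 ^ τ := by positivity
    linarith
  · obtain ⟨k, rfl⟩ := Nat.exists_eq_add_of_le h
    have h1 : (2 : ℝ) ^ (τ + k) / 2 ^ τ = 2 ^ k := by
      rw [pow_add]; field_simp
    rw [h1]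
    have h2 : k < 2 ^ k := Nat.lt_two_pow_self
    have h3 : (k : ℝ) ≤ 2 ^ k := by exact_mod_cast h2.le
    push_cast
    linarith

lemma privTot (S : Finset (Finset V)) (t : ℕ) (h : HB S (t + 1)) (τ : ℕ) :
    ((S.biUnion (fun A => priv S A)).card : ℝ) ≤
      4 * ((2 * t + 1).choose t : ℝ) / 2 ^ τ + τ * S.card := by
  classical
  set S' := S.filter (fun A => (priv S A).Nonempty) with hS'
  have hsub : S' ⊆ S := Finset.filter_subset _ _
  have hp : ∀ A ∈ S', priv S A ⊆ priv S' A := by
    intro A _ v hv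
    rw [mem_priv] at hv ⊢
    exact ⟨hv.1, fun C hC => hv.2 C (hsub hC)⟩
  have hne : ∀ A ∈ S', (priv S' A).Nonempty := by
    intro A hA
    have := (Finset.mem_filter.1 hA).2
    exact this.mono (hp A hA)
  have h1 := priv_sum S' t (h.mono hsub) hne
  have h2 : (S.biUnion (fun A => priv S A)) ⊆ S'.biUnion (fun A => priv S A) := by
    intro v hv
    rw [mem_biUnion] at hv ⊢
    obtain ⟨A, hA, hv⟩ := hv
    exact ⟨A, Finset.mem_filter.2 ⟨hA, ⟨v, hv⟩⟩, hv⟩
  have h3 : ((S.biUnion (fun A => priv S A)).card : ℝ) ≤ ∑ A ∈ S', ((priv S' A).card : ℝ) := by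
    have e1 := Finset.card_le_card h2
    have e2 : (S'.biUnion (fun A => priv S A)).card ≤ ∑ A ∈ S', (priv S A).card :=
      Finset.card_biUnion_le
    have e3 : ∑ A ∈ S', (priv S A).card ≤ ∑ A ∈ S', (priv S' A).card :=
      Finset.sum_le_sum fun A hA => Finset.card_le_card (hp A hA)
    exact_mod_cast e1.trans (e2.trans e3)
  have h4 : ∑ A ∈ S', ((priv S' A).card : ℝ) ≤
      ∑ A ∈ S', ((2 : ℝ) ^ (priv S' A).card / 2 ^ τ + τ) :=
    Finset.sum_le_sum fun A _ => lin_bound _ τ
  rw [Finset.sum_add_distrib, ← Finset.sum_div, Finset.sum_const, nsmul_eq_mul] at h4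
  have h5 : (∑ A ∈ S', (2 : ℝ) ^ (priv S' A).card) / 2 ^ τ ≤
      4 * ((2 * t + 1).choose t : ℝ) / 2 ^ τ := by
    apply div_le_div_of_nonneg_right h1 (by positivity)
  have h6 : (S'.card : ℝ) * τ ≤ τ * S.card := by
    rw [mul_comm]
    apply mul_le_mul_of_nonneg_left _ (Nat.cast_nonneg τ)
    exact_mod_cast Finset.card_le_card hsub
  linarith

lemma pow_bound (m k : ℕ) (hk : k ≤ 2 * m) : ((m : ℝ) + 1) ^ k ≤ 8 * (m : ℝ) ^ k := by
  rcases Nat.eq_zero_or_pos m with hm | hm
  · subst hm
    have : k = 0 := by omega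
    subst this
    norm_num
  · have hm' : (0 : ℝ) < m := by exact_mod_cast hm
    have h1 : (1 + 1 / (m : ℝ)) ^ k ≤ 8 := by
      have e0 : 1 + 1 / (m : ℝ) ≤ Real.exp (1 / m) := by
        have := Real.add_one_le_exp (1 / (m : ℝ))
        linarith
      have e1 : (1 + 1 / (m : ℝ)) ^ k ≤ (Real.exp (1 / m)) ^ k :=
        pow_le_pow_left₀ (by positivity) e0 k
      have e2 : (Real.exp (1 / m)) ^ k = Real.exp (k * (1 / m)) := by
        rw [← Real.exp_nat_mul]
      have e3 : (k : ℝ) * (1 / m) ≤ 2 := by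
        rw [mul_one_div, div_le_iff₀ hm']
        exact_mod_cast hk
      have e4 : Real.exp (k * (1 / m)) ≤ Real.exp 2 := Real.exp_le_exp.2 e3
      have e5 : Real.exp 2 ≤ 8 := by
        have : Real.exp 2 = Real.exp 1 * Real.exp 1 := by
          rw [← Real.exp_add]; norm_num
        rw [this]
        have h2 := Real.exp_one_lt_d9
        have h3 := Real.exp_pos 1
        nlinarith
      rw [e2] at e1
      linarith
    have h2 : ((m : ℝ) + 1) = (1 + 1 / m) * m := by
      field_simp
    rw [h2, mul_pow]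
    exact mul_le_mul_of_nonneg_right h1 (by positivity)

/-- colourings for which `a` is the only set containing `v` of colour `0` -/
def Good (F : Finset (Finset V)) (m : ℕ) (v : V) (a : {A // A ∈ F}) :
    Finset ({A // A ∈ F} → Fin (m + 1)) :=
  Fintype.piFinset fun b => if b = a then {0} else if v ∈ b.1 then univ.erase 0 else univ

lemma mem_Good {F : Finset (Finset V)} {m : ℕ} {v : V} {a : {A // A ∈ F}}
    {χ : {A // A ∈ F} → Fin (m + 1)} :
    χ ∈ Good F m v a ↔ χ a = 0 ∧ ∀ b, b ≠ a → v ∈ b.1 → χ b ≠ 0 := by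
  unfold Good
  rw [Fintype.mem_piFinset]
  constructor
  · intro h
    refine ⟨?_, ?_⟩
    · have := h a
      simpa using this
    · intro b hb hv
      have := h b
      rw [if_neg hb, if_pos hv] at this
      exact (Finset.mem_erase.1 this).1
  · rintro ⟨h1, h2⟩ b
    by_cases hb : b = a
    · rw [if_pos hb, hb]; simpa using h1
    · rw [if_neg hb]
      by_cases hv : v ∈ b.1
      · rw [if_pos hv]
        exact Finset.mem_erase.2 ⟨h2 b hb hv, mem_univ _⟩
      · rw [if_neg hv]; exact mem_univ _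

/-- the number of members of the family which contain `v` -/
def dg (F : Finset (Finset V)) (v : V) : ℕ := (univ.filter (fun b : {A // A ∈ F} => v ∈ b.1)).card

lemma card_Good (F : Finset (Finset V)) (m : ℕ) (v : V) (a : {A // A ∈ F}) (hv : v ∈ a.1) :
    (Good F m v a).card = m ^ (dg F v - 1) * (m + 1) ^ (F.card - dg F v) := by
  unfold Good
  rw [Fintype.card_piFinset, ← Finset.mul_prod_erase univ _ (mem_univ a)]
  rw [if_pos rfl, card_singleton, one_mul]
  have h1 : ∏ x ∈ univ.erase a, (if x = a then ({0} : Finset (Fin (m + 1))) else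
      if v ∈ x.1 then univ.erase 0 else univ).card
      = ∏ x ∈ univ.erase a, (if v ∈ x.1 then m else (m + 1)) := by
    apply Finset.prod_congr rfl
    intro x hx
    rw [if_neg (Finset.mem_erase.1 hx).1]
    split_ifs
    · rw [Finset.card_erase_of_mem (mem_univ _), Finset.card_univ, Fintype.card_fin]
      omega
    · rw [Finset.card_univ, Fintype.card_fin]
  rw [h1, Finset.prod_ite, Finset.prod_const, Finset.prod_const]
  have h2 : ((univ.erase a).filter (fun x : {A // A ∈ F} => v ∈ x.1)).card = dg F v - 1 := by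
    rw [Finset.filter_erase, Finset.card_erase_of_mem (by simp [hv])]
    rfl
  have h3 : ((univ.erase a).filter (fun x : {A // A ∈ F} => ¬ v ∈ x.1)).card = F.card - dg F v := by
    have e1 := Finset.card_filter_add_card_filter_not (s := univ.erase a)
      (fun x : {A // A ∈ F} => v ∈ x.1)
    have e2 : (univ.erase a : Finset {A // A ∈ F}).card = F.card - 1 := by
      rw [Finset.card_erase_of_mem (mem_univ _), Finset.card_univ, Fintype.card_coe]
    have e3 : 1 ≤ dg F v := by
      unfold dg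
      rw [Nat.one_le_iff_ne_zero, ← Nat.pos_iff_ne_zero, Finset.card_pos]
      exact ⟨a, by simp [hv]⟩
    have e4 : dg F v ≤ F.card := by
      unfold dg
      refine (Finset.card_le_univ _).trans ?_
      rw [Fintype.card_coe]
    omega
  rw [h2, h3]

end Pool.Agent.H416Sens
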