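import Mathlib

set_option autoImplicit false

open Finset

namespace Pool.Agent.H416Sens

lemma choose_id (a b : ℕ) (hb : 1 ≤ b) :
    (b : ℝ) / ((a + (b - 1)).choose a : ℝ) = ((a : ℝ) + b) / ((a + b).choose a : ℝ) := by
  obtain ⟨c, rfl⟩ : ∃ c, b = c + 1 := ⟨b - 1, by omega⟩
  have h := Nat.choose_mul_succ_eq (a + c) a
  have h1 : a + c + 1 - a = c + 1 := by omega
  rw [h1] at h
  have h2 : (0 : ℝ) < ((a + c).choose a : ℝ) := by
    exact_mod_cast Nat.choose_pos (by omega)
  have h3 : (0 : ℝ) < ((a + (c + 1)).choose a : ℝ) := by
    exact_mod_cast Nat.choose_pos (by omega)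
  have h4 : ((a + c).choose a : ℝ) * ((a : ℝ) + c + 1) = ((a + (c + 1)).choose a : ℝ) * ((c : ℝ) + 1) := by
    have := h
    rw [← add_assoc]
    exact_mod_cast this
  rw [Nat.add_sub_cancel, div_eq_div_iff h2.ne' h3.ne']
  push_cast
  linarith

/-- Bollobas's inequality for set pairs. -/
theorem bollobas {ι V : Type*} [DecidableEq V] (G : Finset V) :
    ∀ (I : Finset ι) (A B : ι → Finset V), (∀ i ∈ I, A i ⊆ G) → (∀ i ∈ I, B i ⊆ G) →
      (∀ i ∈ I, Disjoint (A i) (B i)) →
      (∀ i ∈ I, ∀ j ∈ I, i ≠ j → ¬ Disjoint (A i) (B j)) →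
      ∑ i ∈ I, (1 : ℝ) / (((A i).card + (B i).card).choose (A i).card : ℝ) ≤ 1 := by
  classical
  induction G using Finset.strongInduction with
  | H G ih =>
  intro I A B hA hB hd hc
  by_cases hemp : ∃ i ∈ I, B i = ∅
  · obtain ⟨i, hi, hBi⟩ := hemp
    have hI : I = {i} := by
      apply Finset.eq_singleton_iff_unique_mem.2
      refine ⟨hi, fun j hj => ?_⟩
      by_contra hne
      apply hc j hj i hi hne
      rw [hBi]
      exact disjoint_empty_right _
    rw [hI, sum_singleton, hBi]
    simp
  · push Not at hemp
    rcases I.eq_empty_or_nonempty with hI | ⟨i0, hi0⟩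
    · rw [hI]; simp
    · have hBne : ∀ i ∈ I, (B i).Nonempty := hemp
      have hGne : G.Nonempty := (hBne i0 hi0).mono (hB i0 hi0)
      have hGpos : (0 : ℝ) < G.card := by exact_mod_cast hGne.card_pos
      -- sum over x
      have hx : ∀ x ∈ G, ∑ i ∈ I, (if x ∈ A i then (0 : ℝ) else
          1 / (((A i).card + ((B i).erase x).card).choose (A i).card : ℝ)) ≤ 1 := by
        intro x hxG
        have h1 := ih (G.erase x) (Finset.erase_ssubset hxG) (I.filter (fun i => x ∉ A i)) A
          (fun i => (B i).erase x) ?_ ?_ ?_ ?_
        · rw [Finset.sum_filter] at h1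
          refine le_trans (le_of_eq ?_) h1
          apply Finset.sum_congr rfl
          intro i _
          by_cases h : x ∈ A i <;> simp [h]
        · intro i hi
          rw [mem_filter] at hi
          intro y hy
          rw [mem_erase]
          exact ⟨fun h => hi.2 (h ▸ hy), hA i hi.1 hy⟩
        · intro i hi
          rw [mem_filter] at hi
          exact Finset.erase_subset_erase _ (hB i hi.1)
        · intro i hi
          rw [mem_filter] at hi
          exact Disjoint.mono_right (Finset.erase_subset _ _) (hd i hi.1)
        · intro i hi j hj hij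
          rw [mem_filter] at hi hj
          have h2 := hc i hi.1 j hj.1 hij
          rw [Finset.not_disjoint_iff] at h2 ⊢
          obtain ⟨y, hy1, hy2⟩ := h2
          refine ⟨y, hy1, ?_⟩
          rw [mem_erase]
          exact ⟨fun h => hi.2 (h ▸ hy1), hy2⟩
      have hsum := Finset.sum_le_sum hx
      rw [Finset.sum_comm] at hsum
      have hin : ∀ i ∈ I, ∑ x ∈ G, (if x ∈ A i then (0 : ℝ) else
          1 / (((A i).card + ((B i).erase x).card).choose (A i).card : ℝ))
          = (G.card : ℝ) * (1 / (((A i).card + (B i).card).choose (A i).card : ℝ)) := by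
        intro i hi
        set a := (A i).card with ha
        set b := (B i).card with hb
        have hb1 : 1 ≤ b := (hBne i hi).card_pos
        have hsub : B i ⊆ G \ A i := by
          intro y hy
          rw [mem_sdiff]
          exact ⟨hB i hi hy, fun h => (Finset.disjoint_left.1 (hd i hi)) h hy⟩
        have e1 : ∑ x ∈ G, (if x ∈ A i then (0 : ℝ) else
            1 / ((a + ((B i).erase x).card).choose a : ℝ))
            = ∑ x ∈ G \ A i, 1 / ((a + ((B i).erase x).card).choose a : ℝ) := by
          rw [← Finset.sum_sdiff (hA i hi)]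
          have : ∑ x ∈ A i, (if x ∈ A i then (0 : ℝ) else
            1 / ((a + ((B i).erase x).card).choose a : ℝ)) = 0 := by
            apply Finset.sum_eq_zero
            intro x hx; simp [hx]
          rw [this, add_zero]
          apply Finset.sum_congr rfl
          intro x hx
          rw [mem_sdiff] at hx
          simp [hx.2]
        rw [e1, ← Finset.sum_sdiff hsub]
        have e2 : ∑ x ∈ B i, 1 / ((a + ((B i).erase x).card).choose a : ℝ)
            = b / ((a + (b - 1)).choose a : ℝ) := by
          have : ∀ x ∈ B i, 1 / ((a + ((B i).erase x).card).choose a : ℝ)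
              = 1 / ((a + (b - 1)).choose a : ℝ) := by
            intro x hx
            rw [Finset.card_erase_of_mem hx]
          rw [Finset.sum_congr rfl this, Finset.sum_const, nsmul_eq_mul, ← hb]
          ring
        have e3 : ∑ x ∈ (G \ A i) \ B i, 1 / ((a + ((B i).erase x).card).choose a : ℝ)
            = ((G.card : ℝ) - a - b) * (1 / ((a + b).choose a : ℝ)) := by
          have : ∀ x ∈ (G \ A i) \ B i, 1 / ((a + ((B i).erase x).card).choose a : ℝ)
              = 1 / ((a + b).choose a : ℝ) := by
            intro x hx
            rw [mem_sdiff] at hx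
            rw [Finset.erase_eq_of_notMem hx.2]
          rw [Finset.sum_congr rfl this, Finset.sum_const, nsmul_eq_mul]
          have hc1 : ((G \ A i) \ B i).card + b = (G \ A i).card := by
            rw [hb]; exact Finset.card_sdiff_add_card_eq_card hsub
          have hc2 : (G \ A i).card + a = G.card := by
            rw [ha]; exact Finset.card_sdiff_add_card_eq_card (hA i hi)
          have hc3 : (((G \ A i) \ B i).card : ℝ) = (G.card : ℝ) - a - b := by
            have h1 : (((G \ A i) \ B i).card : ℝ) + b = ((G \ A i).card : ℝ) := by exact_mod_cast hc1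
            have h2 : ((G \ A i).card : ℝ) + a = (G.card : ℝ) := by exact_mod_cast hc2
            linarith
          rw [hc3]
        rw [e2, e3, choose_id a b hb1]
        ring
      rw [Finset.sum_congr rfl hin, ← Finset.mul_sum, Finset.sum_const, nsmul_eq_mul, mul_one] at hsum
      exact le_of_mul_le_mul_left (by linarith) hGpos

end Pool.Agent.H416Sens
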