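import Pool.Agent.H416Sens.Average

set_option autoImplicit false

open Finset

namespace Pool.Agent.H416Sens

variable {V : Type*} [DecidableEq V]

/-- the members of colour zero -/
def Z (F : Finset (Finset V)) {m : ℕ} (χ : {A // A ∈ F} → Fin (m + 1)) : Finset (Finset V) :=
  (univ.filter (fun a : {A // A ∈ F} => χ a = 0)).image Subtype.val

lemma mem_Z {F : Finset (Finset V)} {m : ℕ} {χ : {A // A ∈ F} → Fin (m + 1)} {A : Finset V} :
    A ∈ Z F χ ↔ ∃ h : A ∈ F, χ ⟨A, h⟩ = 0 := by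
  unfold Z
  simp only [mem_image, mem_filter, mem_univ, true_and, Subtype.exists, exists_and_right,
    exists_eq_right]

lemma Z_sub {F : Finset (Finset V)} {m : ℕ} (χ : {A // A ∈ F} → Fin (m + 1)) : Z F χ ⊆ F := by
  intro A hA
  obtain ⟨h, _⟩ := mem_Z.1 hA
  exact h

lemma card_Z {F : Finset (Finset V)} {m : ℕ} (χ : {A // A ∈ F} → Fin (m + 1)) :
    (Z F χ).card = (univ.filter (fun a : {A // A ∈ F} => χ a = 0)).card :=
  Finset.card_image_of_injective _ Subtype.val_injective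

lemma card_zero {F : Finset (Finset V)} {m : ℕ} (a : {A // A ∈ F}) :
    (univ.filter (fun χ : {A // A ∈ F} → Fin (m + 1) => χ a = 0)).card = (m + 1) ^ (F.card - 1) := by
  have h1 : univ.filter (fun χ : {A // A ∈ F} → Fin (m + 1) => χ a = 0)
      = Fintype.piFinset (fun b : {A // A ∈ F} => if b = a then ({0} : Finset (Fin (m + 1))) else univ) := by
    ext χ
    rw [Fintype.mem_piFinset]
    simp only [mem_filter, mem_univ, true_and]
    constructor
    · intro h b
      by_cases hb : b = a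
      · rw [if_pos hb, hb]; simpa using h
      · rw [if_neg hb]; exact mem_univ _
    · intro h
      have := h a
      simpa using this
  rw [h1, Fintype.card_piFinset, ← Finset.mul_prod_erase univ _ (mem_univ a), if_pos rfl,
    card_singleton, one_mul]
  have h2 : ∏ x ∈ univ.erase a, (if x = a then ({0} : Finset (Fin (m + 1))) else univ).card
      = ∏ x ∈ (univ.erase a : Finset {A // A ∈ F}), (m + 1) := by
    apply Finset.prod_congr rfl
    intro x hx
    rw [if_neg (Finset.mem_erase.1 hx).1, Finset.card_univ, Fintype.card_fin]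
  rw [h2, Finset.prod_const, Finset.card_erase_of_mem (mem_univ _), Finset.card_univ,
    Fintype.card_coe]

lemma Good_disj {F : Finset (Finset V)} {m : ℕ} {v : V} {a b : {A // A ∈ F}} (hab : a ≠ b)
    (hb : v ∈ b.1) : Disjoint (Good F m v a) (Good F m v b) := by
  rw [Finset.disjoint_left]
  intro χ h1 h2
  rw [mem_Good] at h1 h2
  exact h1.2 b hab.symm hb h2.1

lemma Good_sub {F : Finset (Finset V)} {m : ℕ} {v : V} {a : {A // A ∈ F}} (ha : v ∈ a.1)
    {χ : {A // A ∈ F} → Fin (m + 1)} (hχ : χ ∈ Good F m v a) :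
    v ∈ (Z F χ).biUnion (fun A => priv (Z F χ) A) := by
  rw [mem_Good] at hχ
  rw [mem_biUnion]
  refine ⟨a.1, mem_Z.2 ⟨a.2, hχ.1⟩, ?_⟩
  rw [mem_priv]
  refine ⟨ha, fun C hC hv => ?_⟩
  obtain ⟨h1, h2⟩ := mem_Z.1 hC
  by_contra hne
  exact hχ.2 ⟨C, h1⟩ (fun h => hne (congrArg Subtype.val h)) hv h2

lemma num3 (m N e : ℕ) (h1 : m + 1 ≤ e) (h2 : e ≤ 2 * m + 1) (h3 : e ≤ N) :
    ((m : ℝ) + 1) ^ N / 8 ≤ (e : ℝ) * ((m : ℝ) ^ (e - 1) * ((m : ℝ) + 1) ^ (N - e)) := by
  have hb := pow_bound m (e - 1) (by omega)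
  have e1 : ((m : ℝ) + 1) ^ N = ((m : ℝ) + 1) * ((m : ℝ) + 1) ^ (e - 1) * ((m : ℝ) + 1) ^ (N - e) := by
    rw [← pow_succ', ← pow_add]
    congr 1
    omega
  rw [e1]
  have hp : (0 : ℝ) ≤ ((m : ℝ) + 1) ^ (N - e) := by positivity
  have hme : ((m : ℝ) + 1) ≤ e := by exact_mod_cast h1
  have hm0 : (0 : ℝ) ≤ (m : ℝ) ^ (e - 1) := by positivity
  calc ((m : ℝ) + 1) * ((m : ℝ) + 1) ^ (e - 1) * ((m : ℝ) + 1) ^ (N - e) / 8
      ≤ ((m : ℝ) + 1) * (8 * (m : ℝ) ^ (e - 1)) * ((m : ℝ) + 1) ^ (N - e) / 8 := by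
        gcongr
    _ = ((m : ℝ) + 1) * ((m : ℝ) ^ (e - 1) * ((m : ℝ) + 1) ^ (N - e)) := by ring
    _ ≤ (e : ℝ) * ((m : ℝ) ^ (e - 1) * ((m : ℝ) + 1) ^ (N - e)) := by
        apply mul_le_mul_of_nonneg_right hme (by positivity)

theorem degClass (F : Finset (Finset V)) (t : ℕ) (h : HB F (t + 1)) (m τ : ℕ) (L : Finset V)
    (hL : ∀ v ∈ L, m + 1 ≤ dg F v ∧ dg F v ≤ 2 * m + 1) :
    (L.card : ℝ) ≤ 8 * (4 * ((2 * t + 1).choose t : ℝ) / 2 ^ τ + τ * (F.card / ((m : ℝ) + 1))) := by
  classical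
  set N := F.card with hN
  set M := ((2 * t + 1).choose t : ℝ) with hM
  have hm0 : (0 : ℝ) < (m : ℝ) + 1 := by positivity
  set P : ({A // A ∈ F} → Fin (m + 1)) → Finset V :=
    fun χ => (Z F χ).biUnion (fun A => priv (Z F χ) A) with hP
  have hcardχ : (Fintype.card ({A // A ∈ F} → Fin (m + 1)) : ℝ) = ((m : ℝ) + 1) ^ N := by
    rw [Fintype.card_fun, Fintype.card_fin, Fintype.card_coe]
    push_cast; rfl
  -- upper bound
  have hup : ∑ χ, ((P χ).card : ℝ) ≤
      ((m : ℝ) + 1) ^ N * (4 * M / 2 ^ τ + τ * (N / ((m : ℝ) + 1))) := by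
    have h1 : ∑ χ, ((P χ).card : ℝ) ≤ ∑ χ : ({A // A ∈ F} → Fin (m + 1)),
        (4 * M / 2 ^ τ + τ * (Z F χ).card) :=
      Finset.sum_le_sum fun χ _ => privTot (Z F χ) t (h.mono (Z_sub χ)) τ
    have h2 : ∑ χ : ({A // A ∈ F} → Fin (m + 1)), ((Z F χ).card : ℝ)
        = ((m : ℝ) + 1) ^ N * (N / ((m : ℝ) + 1)) := by
      have e1 : ∑ χ : ({A // A ∈ F} → Fin (m + 1)), (Z F χ).card = N * (m + 1) ^ (N - 1) := by
        have : ∀ χ : ({A // A ∈ F} → Fin (m + 1)), (Z F χ).card
            = ∑ a : {A // A ∈ F}, if χ a = 0 then 1 else 0 := by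
          intro χ
          rw [card_Z, Finset.card_filter]
        simp_rw [this]
        rw [Finset.sum_comm]
        have h3 : ∀ a : {A // A ∈ F}, ∑ χ : ({A // A ∈ F} → Fin (m + 1)),
            (if χ a = 0 then 1 else 0) = (m + 1) ^ (N - 1) := by
          intro a
          rw [← Finset.card_filter, card_zero]
        rw [Finset.sum_congr rfl (fun a _ => h3 a), Finset.sum_const, Finset.card_univ,
          Fintype.card_coe, smul_eq_mul]
      have e2 : ∑ χ : ({A // A ∈ F} → Fin (m + 1)), ((Z F χ).card : ℝ)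
          = (N : ℝ) * ((m : ℝ) + 1) ^ (N - 1) := by
        exact_mod_cast e1
      rw [e2]
      rcases Nat.eq_zero_or_pos N with h0 | h0
      · rw [h0]; simp
      · have : ((m : ℝ) + 1) ^ N = ((m : ℝ) + 1) ^ (N - 1) * ((m : ℝ) + 1) := by
          rw [← pow_succ]; congr 1; omega
        rw [this]
        field_simp
    rw [Finset.sum_add_distrib, ← Finset.mul_sum, h2, Finset.sum_const, Finset.card_univ,
      nsmul_eq_mul, hcardχ] at h1
    linarith
  -- lower bound
  have hlow : (L.card : ℝ) * (((m : ℝ) + 1) ^ N / 8) ≤ ∑ χ, ((P χ).card : ℝ) := by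
    have h1 : ∀ v ∈ L, ((m : ℝ) + 1) ^ N / 8 ≤
        ((univ.filter (fun χ => v ∈ P χ)).card : ℝ) := by
      intro v hv
      obtain ⟨ha, hb⟩ := hL v hv
      have hdN : dg F v ≤ N := by
        unfold dg
        refine (Finset.card_le_univ _).trans ?_
        rw [Fintype.card_coe]
      refine (num3 m N (dg F v) ha hb hdN).trans ?_
      have e1 : ((univ.filter (fun a : {A // A ∈ F} => v ∈ a.1)).biUnion
          (fun a => Good F m v a)) ⊆ univ.filter (fun χ => v ∈ P χ) := by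
        intro χ hχ
        rw [mem_biUnion] at hχ
        obtain ⟨a, ha, hχ⟩ := hχ
        rw [mem_filter]
        exact ⟨mem_univ _, Good_sub (Finset.mem_filter.1 ha).2 hχ⟩
      have e2 := Finset.card_le_card e1
      rw [Finset.card_biUnion] at e2
      · have e3 : ∑ a ∈ univ.filter (fun a : {A // A ∈ F} => v ∈ a.1), (Good F m v a).card
            = dg F v * (m ^ (dg F v - 1) * (m + 1) ^ (N - dg F v)) := by
          rw [Finset.sum_congr rfl (fun a ha => card_Good F m v a (Finset.mem_filter.1 ha).2),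
            Finset.sum_const, smul_eq_mul]
          rfl
        rw [e3] at e2
        exact_mod_cast e2
      · intro a ha b hb hab
        exact Good_disj hab (Finset.mem_filter.1 hb).2
    have h2 : ∑ v ∈ L, ((univ.filter (fun χ => v ∈ P χ)).card : ℝ) ≤ ∑ χ, ((P χ).card : ℝ) := by
      have e1 : ∑ v ∈ L, (univ.filter (fun χ => v ∈ P χ)).card = ∑ χ, (L.filter (fun v => v ∈ P χ)).card := by
        simp_rw [Finset.card_filter]
        rw [Finset.sum_comm]
      have e2 : ∑ χ, (L.filter (fun v => v ∈ P χ)).card ≤ ∑ χ, (P χ).card := by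
        apply Finset.sum_le_sum
        intro χ _
        apply Finset.card_le_card
        intro v hv
        exact (Finset.mem_filter.1 hv).2
      have := e1.le.trans e2
      exact_mod_cast this
    refine le_trans ?_ h2
    rw [← nsmul_eq_mul, ← Finset.sum_const]
    exact Finset.sum_le_sum h1
  have hT : (0 : ℝ) < ((m : ℝ) + 1) ^ N := by positivity
  have h3 := hlow.trans hup
  have h4 : (L.card : ℝ) * ((m : ℝ) + 1) ^ N ≤
      (8 * (4 * M / 2 ^ τ + τ * (N / ((m : ℝ) + 1)))) * ((m : ℝ) + 1) ^ N := by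
    nlinarith
  exact le_of_mul_le_mul_right h4 hT

lemma geo (J : ℕ) : ∑ j ∈ range J, ((4 + 2 * (j : ℝ)) / 2 ^ j) = 12 - (4 * J + 12) / 2 ^ J := by
  induction J with
  | zero => norm_num
  | succ J ih =>
    rw [Finset.sum_range_succ, ih, pow_succ]
    have : (2 : ℝ) ^ J ≠ 0 := by positivity
    push_cast
    field_simp
    ring

/-- the members of a minimal cover have private points -/
lemma exists_min_cover (T : Finset (Finset V)) : ∃ F ⊆ T, F.biUnion id = T.biUnion id ∧
    ∀ A ∈ F, (priv F A).Nonempty := by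
  classical
  set C := T.powerset.filter (fun F => F.biUnion id = T.biUnion id) with hC
  have hCne : C.Nonempty := ⟨T, by simp [hC]⟩
  obtain ⟨F, hF, hmin⟩ := Finset.exists_min_image C Finset.card hCne
  rw [hC, mem_filter, mem_powerset] at hF
  refine ⟨F, hF.1, hF.2, fun A hA => ?_⟩
  by_contra hne
  rw [Finset.not_nonempty_iff_eq_empty] at hne
  have h1 : F.erase A ∈ C := by
    rw [hC, mem_filter, mem_powerset]
    refine ⟨(Finset.erase_subset _ _).trans hF.1, ?_⟩
    rw [← hF.2]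
    ext v
    simp only [mem_biUnion, id, mem_erase]
    constructor
    · rintro ⟨D, hD, hv⟩
      exact ⟨D, hD.2, hv⟩
    · rintro ⟨D, hD, hv⟩
      by_cases hDA : D = A
      · subst hDA
        have h2 : v ∉ priv F D := by rw [hne]; exact Finset.notMem_empty v
        rw [mem_priv] at h2
        push Not at h2
        obtain ⟨E, hE, hvE, hED⟩ := h2 hv
        exact ⟨E, ⟨hED, hE⟩, hvE⟩
      · exact ⟨D, ⟨hDA, hD⟩, hv⟩
  have h2 := hmin _ h1
  rw [Finset.card_erase_of_mem hA] at h2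
  have h3 : 0 < F.card := Finset.card_pos.2 ⟨A, hA⟩
  omega

theorem cover_bound (T : Finset (Finset V)) (t : ℕ) (h : HB T (t + 1)) :
    ((T.biUnion id).card : ℝ) ≤ 96 * ((2 * t + 1).choose t : ℝ) := by
  classical
  obtain ⟨F, hFT, hFe, hpr⟩ := exists_min_cover T
  have hHF := h.mono hFT
  set M := ((2 * t + 1).choose t : ℝ) with hM
  have hMpos : 0 ≤ M := Nat.cast_nonneg _
  have hN : (F.card : ℝ) ≤ 2 * M := by
    have h1 := priv_sum F t hHF hpr
    have h2 : ∑ A ∈ F, (2 : ℝ) ≤ ∑ A ∈ F, (2 : ℝ) ^ (priv F A).card := by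
      apply Finset.sum_le_sum
      intro A hA
      have h3 : 1 ≤ (priv F A).card := (hpr A hA).card_pos
      calc (2 : ℝ) = 2 ^ 1 := by norm_num
        _ ≤ 2 ^ (priv F A).card := pow_le_pow_right₀ (by norm_num) h3
    rw [Finset.sum_const, nsmul_eq_mul] at h2
    linarith
  rw [← hFe]
  set J := F.card + 1 with hJ
  set L : ℕ → Finset V := fun j => (F.biUnion id).filter (fun v => Nat.log 2 (dg F v) = j) with hL
  have hdg : ∀ v ∈ F.biUnion id, 1 ≤ dg F v ∧ dg F v ≤ F.card := by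
    intro v hv
    rw [mem_biUnion] at hv
    obtain ⟨A, hA, hv⟩ := hv
    constructor
    · unfold dg
      rw [Nat.one_le_iff_ne_zero, ← Nat.pos_iff_ne_zero, Finset.card_pos]
      exact ⟨⟨A, hA⟩, by simpa using hv⟩
    · unfold dg
      refine (Finset.card_le_univ _).trans ?_
      rw [Fintype.card_coe]
  have hcov : F.biUnion id ⊆ (range J).biUnion L := by
    intro v hv
    rw [mem_biUnion]
    refine ⟨Nat.log 2 (dg F v), ?_, ?_⟩
    · rw [mem_range]
      have h1 : Nat.log 2 (dg F v) ≤ dg F v := Nat.log_le_self 2 _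
      have h2 := (hdg v hv).2
      omega
    · rw [hL]
      exact Finset.mem_filter.2 ⟨hv, rfl⟩
  have hcl : ∀ j, ((L j).card : ℝ) ≤ 8 * M * ((4 + 2 * (j : ℝ)) / 2 ^ j) := by
    intro j
    have hpos : 1 ≤ 2 ^ j := Nat.one_le_two_pow
    have h1 := degClass F t hHF (2 ^ j - 1) j (L j) ?_
    · have e1 : ((2 ^ j - 1 : ℕ) : ℝ) + 1 = 2 ^ j := by
        push_cast [Nat.cast_sub hpos]
        ring
      rw [e1] at h1
      refine h1.trans ?_
      have hp : (0 : ℝ) < 2 ^ j := by positivity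
      have h2 : (j : ℝ) * (F.card / 2 ^ j) ≤ j * (2 * M / 2 ^ j) := by
        apply mul_le_mul_of_nonneg_left _ (Nat.cast_nonneg j)
        apply div_le_div_of_nonneg_right hN hp.le
      have h3 : 8 * M * ((4 + 2 * (j : ℝ)) / 2 ^ j) = 8 * (4 * M / 2 ^ j + j * (2 * M / 2 ^ j)) := by
        field_simp
      rw [h3]
      linarith
    · intro v hv
      rw [hL] at hv
      obtain ⟨hv1, hv2⟩ := Finset.mem_filter.1 hv
      have h3 := (hdg v hv1).1
      have h4 : 2 ^ j ≤ dg F v := by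
        rw [← hv2]; exact Nat.pow_log_le_self 2 (by omega)
      have h5 : dg F v < 2 ^ (j + 1) := by
        rw [← hv2]; exact Nat.lt_pow_succ_log_self (by norm_num) _
      rw [pow_succ] at h5
      omega
  have h1 : ((F.biUnion id).card : ℝ) ≤ ∑ j ∈ range J, ((L j).card : ℝ) := by
    have e1 := Finset.card_le_card hcov
    have e2 : ((range J).biUnion L).card ≤ ∑ j ∈ range J, (L j).card := Finset.card_biUnion_le
    exact_mod_cast e1.trans e2
  have h2 : ∑ j ∈ range J, ((L j).card : ℝ) ≤ ∑ j ∈ range J, (8 * M * ((4 + 2 * (j : ℝ)) / 2 ^ j)) :=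
    Finset.sum_le_sum fun j _ => hcl j
  rw [← Finset.mul_sum, geo] at h2
  have h3 : (0 : ℝ) ≤ (4 * J + 12) / 2 ^ J := by positivity
  nlinarith

end Pool.Agent.H416Sens
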