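import Pool.Agent.H416Sens.Class

set_option autoImplicit false

open Finset Function

namespace Pool.Agent.H416Sens

variable {n : ℕ}

/-- the indicator of a set -/
def ch (S : Finset (Fin n)) : Fin n → Bool := fun i => decide (i ∈ S)

lemma ch_mono {S T : Finset (Fin n)} (h : S ⊆ T) : ch S ≤ ch T := by
  intro i
  unfold ch
  by_cases hi : i ∈ S
  · simp [hi, h hi]
  · simp [hi]

lemma up {f : (Fin n → Bool) → Bool} (hf : Monotone f) {S T : Finset (Fin n)} (h : S ⊆ T)
    (hS : f (ch S) = true) : f (ch T) = true := by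
  have h1 := hf (ch_mono h)
  rw [hS] at h1
  exact top_le_iff.1 h1

lemma ch_update_false (S : Finset (Fin n)) (a : Fin n) :
    update (ch S) a false = ch (S.erase a) := by
  funext i
  by_cases hi : i = a
  · subst hi; simp [ch]
  · rw [update_of_ne hi]
    simp [ch, hi]

lemma ch_update_true (S : Finset (Fin n)) (a : Fin n) :
    update (ch S) a true = ch (insert a S) := by
  funext i
  by_cases hi : i = a
  · subst hi; simp [ch]
  · rw [update_of_ne hi]
    simp [ch, hi]

/-- the minterms of `f` -/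
def mint (f : (Fin n → Bool) → Bool) : Finset (Finset (Fin n)) :=
  univ.filter (fun A => f (ch A) = true ∧ ∀ a ∈ A, f (ch (A.erase a)) = false)

lemma mem_mint {f : (Fin n → Bool) → Bool} {A : Finset (Fin n)} :
    A ∈ mint f ↔ f (ch A) = true ∧ ∀ a ∈ A, f (ch (A.erase a)) = false := by
  simp [mint]

lemma rel_mem {f : (Fin n → Bool) → Bool} (hf : Monotone f) (i : Fin n)
    (hi : ∃ x : Fin n → Bool, f (update x i true) ≠ f (update x i false)) :
    i ∈ (mint f).biUnion id := by
  classical
  obtain ⟨x, hx⟩ := hi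
  set S0 : Finset (Fin n) := univ.filter (fun j => update x i false j = true) with hS0
  have h0 : update x i false = ch S0 := by
    funext j
    simp only [ch, hS0, mem_filter, mem_univ, true_and]
    cases update x i false j <;> simp
  have h1 : update x i true = ch (insert i S0) := by
    rw [← ch_update_true, ← h0, update_idem]
  rw [h0, h1] at hx
  have hle : f (ch S0) ≤ f (ch (insert i S0)) := hf (ch_mono (subset_insert _ _))
  have hf0 : f (ch S0) = false := by
    cases h2 : f (ch S0) with
    | false => rfl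
    | true =>
      rw [h2] at hle hx
      exact absurd (top_le_iff.1 hle) hx
  have hf1 : f (ch (insert i S0)) = true := by
    cases h2 : f (ch (insert i S0)) with
    | true => rfl
    | false => rw [h2, hf0] at hx; exact absurd rfl hx
  set C := (insert i S0).powerset.filter (fun A => f (ch A) = true) with hC
  have hCne : C.Nonempty := ⟨insert i S0, by simp [hC, hf1]⟩
  obtain ⟨A, hA, hmin⟩ := Finset.exists_min_image C Finset.card hCne
  rw [hC, mem_filter, mem_powerset] at hA
  have hAm : A ∈ mint f := by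
    rw [mem_mint]
    refine ⟨hA.2, fun a ha => ?_⟩
    by_contra hne
    have hne' : f (ch (A.erase a)) = true := by
      cases h3 : f (ch (A.erase a)) with
      | true => rfl
      | false => exact absurd h3 hne
    have h4 := hmin (A.erase a) (by
      rw [hC, mem_filter, mem_powerset]
      exact ⟨(Finset.erase_subset _ _).trans hA.1, hne'⟩)
    rw [Finset.card_erase_of_mem ha] at h4
    have : 0 < A.card := Finset.card_pos.2 ⟨a, ha⟩
    omega
  rw [mem_biUnion]
  refine ⟨A, hAm, ?_⟩
  by_contra hiA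
  have : A ⊆ S0 := by
    intro j hj
    have := hA.1 hj
    rw [mem_insert] at this
    rcases this with h5 | h5
    · exact absurd (h5 ▸ hj) hiA
    · exact h5
  have := up hf this hA.2
  rw [hf0] at this
  exact absurd this (by simp)

lemma mint_HB {f : (Fin n → Bool) → Bool} (hf : Monotone f) (d : ℕ)
    (hd : ∀ x : Fin n → Bool,
      (univ.filter (fun i : Fin n => f (update x i (!x i)) ≠ f x)).card ≤ d) :
    HB (mint f) d := by
  classical
  constructor
  · intro A hA
    rw [mem_mint] at hA
    refine le_trans (Finset.card_le_card ?_) (hd (ch A))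
    intro a ha
    rw [mem_filter]
    refine ⟨mem_univ _, ?_⟩
    have h1 : (!ch A a) = false := by simp [ch, ha]
    rw [h1, ch_update_false, hA.2 a ha, hA.1]
    simp
  · intro A hA u hu
    rw [mem_mint] at hA
    set C : Finset (Finset (Fin n)) :=
      univ.filter (fun Z => A.erase u ⊆ Z ∧ f (ch Z) = false) with hC
    have hCne : C.Nonempty := ⟨A.erase u, by simp [hC, hA.2 u hu]⟩
    obtain ⟨Y, hY, hmax⟩ := Finset.exists_max_image C Finset.card hCne
    rw [hC, mem_filter] at hY
    obtain ⟨_, hY1, hY2⟩ := hY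
    have huY : u ∉ Y := by
      intro h
      have : A ⊆ Y := by
        intro a ha
        by_cases hau : a = u
        · rw [hau]; exact h
        · exact hY1 (Finset.mem_erase.2 ⟨hau, ha⟩)
      have := up hf this hA.1
      rw [hY2] at this
      exact absurd this (by simp)
    refine ⟨univ \ Y, ?_, ?_, ?_⟩
    · refine le_trans (Finset.card_le_card ?_) (hd (ch Y))
      intro b hb
      rw [mem_sdiff] at hb
      rw [mem_filter]
      refine ⟨mem_univ _, ?_⟩
      have h1 : (!ch Y b) = true := by simp [ch, hb.2]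
      rw [h1, ch_update_true, hY2]
      intro h2
      have h3 := hmax (insert b Y) (by
        rw [hC, mem_filter]
        exact ⟨mem_univ _, hY1.trans (subset_insert _ _), h2⟩)
      rw [Finset.card_insert_of_notMem hb.2] at h3
      omega
    · ext a
      rw [mem_inter, mem_sdiff, mem_singleton]
      constructor
      · rintro ⟨h1, _, h2⟩
        by_contra h3
        exact h2 (hY1 (Finset.mem_erase.2 ⟨h3, h1⟩))
      · rintro rfl
        exact ⟨hu, mem_univ _, huY⟩
    · intro D hD
      rw [mem_mint] at hD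
      by_contra hne
      rw [Finset.not_nonempty_iff_eq_empty] at hne
      have : D ⊆ Y := by
        intro a ha
        by_contra haY
        have : a ∈ D ∩ (univ \ Y) := mem_inter.2 ⟨ha, mem_sdiff.2 ⟨mem_univ _, haY⟩⟩
        rw [hne] at this
        exact absurd this (Finset.notMem_empty a)
      have := up hf this hD.1
      rw [hY2] at this
      exact absurd this (by simp)

lemma central_sq (s : ℕ) : (3 * (s : ℝ) + 1) * (s.centralBinom : ℝ) ^ 2 ≤ 16 ^ s := by
  induction s with
  | zero => simp
  | succ s ih =>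
    have h1 := Nat.succ_mul_centralBinom_succ s
    have h2 : ((s : ℝ) + 1) * ((s + 1).centralBinom : ℝ) = 2 * (2 * s + 1) * (s.centralBinom : ℝ) := by
      exact_mod_cast h1
    have h3 : ((s : ℝ) + 1) ^ 2 * ((s + 1).centralBinom : ℝ) ^ 2 =
        4 * (2 * s + 1) ^ 2 * (s.centralBinom : ℝ) ^ 2 := by
      have : (((s : ℝ) + 1) * ((s + 1).centralBinom : ℝ)) ^ 2 =
        (2 * (2 * s + 1) * (s.centralBinom : ℝ)) ^ 2 := by rw [h2]
      nlinarith
    have hs : (0 : ℝ) ≤ s := Nat.cast_nonneg s
    have hp : (0 : ℝ) < ((s : ℝ) + 1) ^ 2 * (3 * s + 1) := by positivity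
    have h4 : ((s : ℝ) + 1) ^ 2 * (3 * s + 1) * ((3 * ((s + 1 : ℕ) : ℝ) + 1) *
        ((s + 1).centralBinom : ℝ) ^ 2) ≤ ((s : ℝ) + 1) ^ 2 * (3 * s + 1) * 16 ^ (s + 1) := by
      have e1 : ((s : ℝ) + 1) ^ 2 * (3 * s + 1) * ((3 * ((s + 1 : ℕ) : ℝ) + 1) *
        ((s + 1).centralBinom : ℝ) ^ 2) = (3 * s + 4) * (4 * (2 * s + 1) ^ 2) *
          ((3 * s + 1) * (s.centralBinom : ℝ) ^ 2) := by
        push_cast
        calc ((s : ℝ) + 1) ^ 2 * (3 * s + 1) * ((3 * (s + 1) + 1) *
            ((s + 1).centralBinom : ℝ) ^ 2) = (3 * s + 1) * (3 * s + 4) *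
              (((s : ℝ) + 1) ^ 2 * ((s + 1).centralBinom : ℝ) ^ 2) := by ring
          _ = _ := by rw [h3]; ring
      rw [e1]
      have e2 : (3 * (s : ℝ) + 4) * (4 * (2 * s + 1) ^ 2) ≤ 16 * ((s + 1) ^ 2 * (3 * s + 1)) := by
        nlinarith
      calc (3 * (s : ℝ) + 4) * (4 * (2 * s + 1) ^ 2) * ((3 * s + 1) * (s.centralBinom : ℝ) ^ 2)
          ≤ (16 * ((s + 1) ^ 2 * (3 * s + 1))) * 16 ^ s := by
            apply mul_le_mul e2 ih (by positivity) (by positivity)
        _ = _ := by rw [pow_succ]; ring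
    exact le_of_mul_le_mul_left h4 hp

lemma central_sqrt (s : ℕ) : (s.centralBinom : ℝ) * Real.sqrt s ≤ 4 ^ s := by
  have h1 := central_sq s
  have hc : (0 : ℝ) ≤ (s.centralBinom : ℝ) := Nat.cast_nonneg _
  have hs : (0 : ℝ) ≤ s := Nat.cast_nonneg s
  have h2 : ((s.centralBinom : ℝ) * Real.sqrt s) ^ 2 ≤ (4 ^ s) ^ 2 := by
    rw [mul_pow, Real.sq_sqrt hs]
    have : ((4 : ℝ) ^ s) ^ 2 = 16 ^ s := by
      rw [← pow_mul, mul_comm, pow_mul]; norm_num
    rw [this]
    nlinarith [sq_nonneg (s.centralBinom : ℝ)]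
  exact le_of_sq_le_sq h2 (by positivity)

theorem sens_bound (f : (Fin n → Bool) → Bool) (hf : Monotone f) (d : ℕ)
    (hd : ∀ x : Fin n → Bool,
      (univ.filter (fun i : Fin n => f (update x i (!x i)) ≠ f x)).card ≤ d) :
    ((univ.filter (fun i : Fin n => ∃ x : Fin n → Bool,
        f (update x i true) ≠ f (update x i false))).card : ℝ) * Real.sqrt (d : ℝ)
      ≤ 48 * (4 : ℝ) ^ d := by
  classical
  rcases Nat.eq_zero_or_pos d with h0 | h0
  · subst h0; simp
  · obtain ⟨t, rfl⟩ : ∃ t, d = t + 1 := ⟨d - 1, by omega⟩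
    have h1 := cover_bound (mint f) t (mint_HB hf (t + 1) hd)
    have h2 : ((univ.filter (fun i : Fin n => ∃ x : Fin n → Bool,
        f (update x i true) ≠ f (update x i false))).card : ℝ) ≤ (((mint f).biUnion id).card : ℝ) := by
      have : (univ.filter (fun i : Fin n => ∃ x : Fin n → Bool,
        f (update x i true) ≠ f (update x i false))) ⊆ (mint f).biUnion id := by
        intro i hi
        exact rel_mem hf i (Finset.mem_filter.1 hi).2
      exact_mod_cast Finset.card_le_card this
    have h3 : (2 : ℝ) * ((2 * t + 1).choose t : ℝ) = ((t + 1).centralBinom : ℝ) := by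
      have := Nat.centralBinom_eq_two_mul_choose (t + 1)
      have h4 : (2 * (t + 1)).choose (t + 1) = 2 * (2 * t + 1).choose t := by
        have e1 : 2 * (t + 1) = (2 * t + 1) + 1 := by ring
        rw [e1, Nat.choose_succ_succ, Nat.choose_symm_half]
        ring
      rw [this, h4]
      push_cast
      ring
    have h5 := central_sqrt (t + 1)
    have hs : (0 : ℝ) ≤ Real.sqrt ((t + 1 : ℕ) : ℝ) := Real.sqrt_nonneg _
    calc _ ≤ (96 * ((2 * t + 1).choose t : ℝ)) * Real.sqrt ((t + 1 : ℕ) : ℝ) :=
          mul_le_mul_of_nonneg_right (h2.trans h1) hs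
      _ = 48 * (((t + 1).centralBinom : ℝ) * Real.sqrt ((t + 1 : ℕ) : ℝ)) := by
          rw [← h3]; ring
      _ ≤ 48 * (4 : ℝ) ^ (t + 1) := by
          apply mul_le_mul_of_nonneg_left h5 (by norm_num)

end Pool.Agent.H416Sens
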