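import Pool.Agent.H416Sens.Bollobas

set_option autoImplicit false

open Finset

namespace Pool.Agent.H416Sens

lemma choose_half (t m : ℕ) (h : m + 1 ≤ 2 * t) : 2 * m.choose t ≤ (m + 1).choose t := by
  by_cases htm : m < t
  · rw [Nat.choose_eq_zero_of_lt htm]; simp
  · push Not at htm
    have h1 := Nat.choose_mul_succ_eq m t
    have h2 : 2 * (m + 1 - t) ≤ m + 1 := by omega
    have h3 : 2 * m.choose t * (m + 1) ≤ (m + 1).choose t * (m + 1) := by
      calc 2 * m.choose t * (m + 1) = 2 * (m.choose t * (m + 1)) := by ring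
        _ = 2 * ((m + 1).choose t * (m + 1 - t)) := by rw [h1]
        _ = (m + 1).choose t * (2 * (m + 1 - t)) := by ring
        _ ≤ (m + 1).choose t * (m + 1) := Nat.mul_le_mul_left _ h2
    exact Nat.le_of_mul_le_mul_right h3 (Nat.succ_pos m)

lemma num (t k : ℕ) (hk : k ≤ 2 * t) : 2 ^ k * (2 * t - k).choose t ≤ (2 * t).choose t := by
  induction k with
  | zero => simp
  | succ k ih =>
    have h1 := ih (by omega)
    have h2 := choose_half t (2 * t - (k + 1)) (by omega)
    have h3 : 2 * t - (k + 1) + 1 = 2 * t - k := by omega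
    rw [h3] at h2
    calc 2 ^ (k + 1) * (2 * t - (k + 1)).choose t
        = 2 ^ k * (2 * (2 * t - (k + 1)).choose t) := by ring
      _ ≤ 2 ^ k * (2 * t - k).choose t := Nat.mul_le_mul_left _ h2
      _ ≤ _ := h1

lemma num2 (t r : ℕ) (hr : 1 ≤ r) (hr2 : r ≤ t + 1) :
    2 ^ r * (2 * t + 2 - r).choose t ≤ 4 * (2 * t + 1).choose t := by
  rcases Nat.lt_or_ge r 2 with h | h
  · have : r = 1 := by omega
    subst this
    have : 2 * t + 2 - 1 = 2 * t + 1 := by omega
    rw [this]
    omega
  · obtain ⟨k, rfl⟩ : ∃ k, r = k + 2 := ⟨r - 2, by omega⟩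
    have h1 := num t k (by omega)
    have h2 : 2 * t + 2 - (k + 2) = 2 * t - k := by omega
    rw [h2]
    have h3 : (2 * t).choose t ≤ (2 * t + 1).choose t := Nat.choose_le_choose t (by omega)
    calc 2 ^ (k + 2) * (2 * t - k).choose t = 4 * (2 ^ k * (2 * t - k).choose t) := by ring
      _ ≤ 4 * (2 * t + 1).choose t := Nat.mul_le_mul_left _ (h1.trans h3)

lemma choose_mono2 {a b a' b' : ℕ} (ha : a ≤ a') (hb : b ≤ b') :
    (a + b).choose a ≤ (a' + b').choose b' := by
  calc (a + b).choose a ≤ (a + b').choose a := Nat.choose_le_choose a (by omega)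
    _ = (a + b').choose b' := by
        rw [← Nat.choose_symm_of_eq_add rfl]
    _ ≤ (a' + b').choose b' := Nat.choose_le_choose b' (by omega)

variable {V : Type*} [DecidableEq V]

/-- The elements of `A` which are in no other member of the family. -/
def priv (S : Finset (Finset V)) (A : Finset V) : Finset V :=
  A.filter (fun v => ∀ C ∈ S, v ∈ C → C = A)

/-- The sets of the family have at most `s` elements, and for each point `u` of a member `A` there
is a set `B` of at most `s` elements meeting all members of the family, and `A` only in `u`. -/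
def HB (S : Finset (Finset V)) (s : ℕ) : Prop :=
  (∀ A ∈ S, A.card ≤ s) ∧ ∀ A ∈ S, ∀ u ∈ A, ∃ B : Finset V, B.card ≤ s ∧ A ∩ B = {u} ∧
    ∀ C ∈ S, (C ∩ B).Nonempty

lemma HB.mono {S S' : Finset (Finset V)} {s : ℕ} (h : HB S s) (hs : S' ⊆ S) : HB S' s := by
  refine ⟨fun A hA => h.1 A (hs hA), fun A hA u hu => ?_⟩
  obtain ⟨B, h1, h2, h3⟩ := h.2 A (hs hA) u hu
  exact ⟨B, h1, h2, fun C hC => h3 C (hs hC)⟩

lemma priv_sub (S : Finset (Finset V)) (A : Finset V) : priv S A ⊆ A := Finset.filter_subset _ _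

lemma mem_priv {S : Finset (Finset V)} {A : Finset V} {v : V} :
    v ∈ priv S A ↔ v ∈ A ∧ ∀ C ∈ S, v ∈ C → C = A := by
  simp [priv]

theorem priv_sum (S : Finset (Finset V)) (t : ℕ) (h : HB S (t + 1))
    (hne : ∀ A ∈ S, (priv S A).Nonempty) :
    ∑ A ∈ S, (2 : ℝ) ^ (priv S A).card ≤ 4 * ((2 * t + 1).choose t : ℝ) := by
  classical
  rcases S.eq_empty_or_nonempty with hS | ⟨A0, hA0⟩
  · rw [hS]; simp
  have hV : Nonempty V := ⟨(hne A0 hA0).choose⟩
  obtain ⟨u, hu⟩ : ∃ u : Finset V → V, ∀ A ∈ S, u A ∈ priv S A := by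
    choose! u hu using fun A hA => (hne A hA)
    exact ⟨u, hu⟩
  have huA : ∀ A ∈ S, u A ∈ A := fun A hA => priv_sub S A (hu A hA)
  obtain ⟨B, hB⟩ : ∃ B : Finset V → Finset V, ∀ A ∈ S, (B A).card ≤ t + 1 ∧ A ∩ B A = {u A} ∧
      ∀ C ∈ S, (C ∩ B A).Nonempty := by
    choose! B hB using fun A hA => h.2 A hA (u A) (huA A hA)
    exact ⟨B, hB⟩
  -- the map identifying private vertices
  obtain ⟨φ, hφ1, hφ2⟩ : ∃ φ : V → V, (∀ C ∈ S, ∀ v ∈ priv S C, φ v = u C) ∧
      (∀ v, (∀ C ∈ S, v ∉ priv S C) → φ v = v) := by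
    refine ⟨fun v => if hv : ∃ C ∈ S, v ∈ priv S C then u hv.choose else v, ?_, ?_⟩
    · intro C hC v hv
      have hex : ∃ C ∈ S, v ∈ priv S C := ⟨C, hC, hv⟩
      simp only [hex, dif_pos]
      have h1 := hex.choose_spec
      have h2 : hex.choose = C := (mem_priv.1 hv).2 _ h1.1 (priv_sub _ _ h1.2)
      exact congrArg u h2
    · intro v hv
      have : ¬ ∃ C ∈ S, v ∈ priv S C := by
        rintro ⟨C, hC, hvC⟩
        exact hv C hC hvC
      simp [this]
  have hφ : ∀ C ∈ S, ∀ v, φ v ∈ C ↔ v ∈ C := by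
    intro C hC v
    by_cases hv : ∃ D ∈ S, v ∈ priv S D
    · obtain ⟨D, hD, hvD⟩ := hv
      rw [hφ1 D hD v hvD]
      constructor
      · intro h1
        have h2 := (mem_priv.1 (hu D hD)).2 C hC h1
        rw [h2]; exact priv_sub _ _ hvD
      · intro h1
        have h2 := (mem_priv.1 hvD).2 C hC h1
        rw [h2]; exact huA D hD
    · push Not at hv
      rw [hφ2 v hv]
  have hbol := bollobas (S.biUnion (fun C => C.image φ) ∪ S.biUnion (fun C => ((B C).image φ).erase (u C)))
    S (fun C => C.image φ) (fun C => ((B C).image φ).erase (u C)) ?_ ?_ ?_ ?_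
  · -- conclude
    have hterm : ∀ C ∈ S, (2 : ℝ) ^ (priv S C).card / (4 * ((2 * t + 1).choose t : ℝ)) ≤
        1 / (((C.image φ).card + (((B C).image φ).erase (u C)).card).choose (C.image φ).card : ℝ) := by
      intro C hC
      set r := (priv S C).card with hr
      have hr1 : 1 ≤ r := (hne C hC).card_pos
      have hrC : r ≤ C.card := Finset.card_le_card (priv_sub S C)
      have hCs : C.card ≤ t + 1 := h.1 C hC
      have hca : (C.image φ).card ≤ t + 2 - r := by
        have hsub : C.image φ ⊆ insert (u C) (C \ priv S C) := by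
          intro w hw
          rw [mem_image] at hw
          obtain ⟨v, hv, rfl⟩ := hw
          by_cases hvp : v ∈ priv S C
          · rw [hφ1 C hC v hvp]; exact mem_insert_self _ _
          · have : ∀ D ∈ S, v ∉ priv S D := by
              intro D hD hvD
              have := (mem_priv.1 hvD).2 C hC hv
              rw [this] at hvp
              exact hvp hvD
            rw [hφ2 v this]
            apply mem_insert_of_mem
            rw [mem_sdiff]; exact ⟨hv, hvp⟩
        have h1 := Finset.card_le_card hsub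
        have h2 := Finset.card_insert_le (u C) (C \ priv S C)
        have h3 : (C \ priv S C).card + r = C.card := by
          rw [hr]; exact Finset.card_sdiff_add_card_eq_card (priv_sub S C)
        omega
      have hcb : (((B C).image φ).erase (u C)).card ≤ t := by
        have hmem : u C ∈ (B C).image φ := by
          rw [mem_image]
          refine ⟨u C, ?_, hφ1 C hC _ (hu C hC)⟩
          have : u C ∈ C ∩ B C := by rw [(hB C hC).2.1]; simp
          exact (mem_inter.1 this).2
        rw [Finset.card_erase_of_mem hmem]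
        have h1 : ((B C).image φ).card ≤ (B C).card := Finset.card_image_le
        have h2 := (hB C hC).1
        omega
      have hch := choose_mono2 hca hcb
      have h4 : t + 2 - r + t = 2 * t + 2 - r := by omega
      rw [h4] at hch
      have h5 := num2 t r hr1 (by omega)
      have hpos : (0 : ℝ) < (((C.image φ).card + (((B C).image φ).erase (u C)).card).choose (C.image φ).card : ℝ) := by
        exact_mod_cast Nat.choose_pos (by omega)
      have hpos2 : (0 : ℝ) < 4 * ((2 * t + 1).choose t : ℝ) := by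
        have : (0 : ℝ) < ((2 * t + 1).choose t : ℝ) := by exact_mod_cast Nat.choose_pos (by omega)
        linarith
      rw [div_le_div_iff₀ hpos2 hpos, one_mul]
      have h6 : (2 : ℝ) ^ r * ((2 * t + 2 - r).choose t : ℝ) ≤ 4 * ((2 * t + 1).choose t : ℝ) := by
        exact_mod_cast h5
      refine le_trans ?_ h6
      apply mul_le_mul_of_nonneg_left _ (by positivity)
      exact_mod_cast hch
    have h1 := (Finset.sum_le_sum hterm).trans hbol
    rw [← Finset.sum_div] at h1
    have hpos2 : (0 : ℝ) < 4 * ((2 * t + 1).choose t : ℝ) := by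
      have : (0 : ℝ) < ((2 * t + 1).choose t : ℝ) := by exact_mod_cast Nat.choose_pos (by omega)
      linarith
    rw [div_le_one hpos2] at h1
    exact h1
  · intro C hC
    exact (Finset.subset_biUnion_of_mem (fun C => C.image φ) hC).trans subset_union_left
  · intro C hC
    exact (Finset.subset_biUnion_of_mem (fun C => ((B C).image φ).erase (u C)) hC).trans
      subset_union_right
  · intro C hC
    rw [Finset.disjoint_left]
    intro w hw1 hw2
    rw [mem_image] at hw1
    obtain ⟨v, hv, rfl⟩ := hw1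
    rw [mem_erase, mem_image] at hw2
    obtain ⟨h1, v', hv', h2⟩ := hw2
    have h3 : φ v ∈ C := (hφ C hC v).2 hv
    have h4 : v' ∈ C := (hφ C hC v').1 (h2 ▸ h3)
    have h5 : v' ∈ C ∩ B C := mem_inter.2 ⟨h4, hv'⟩
    rw [(hB C hC).2.1, mem_singleton] at h5
    apply h1
    rw [← h2, h5]
    exact hφ1 C hC _ (hu C hC)
  · intro C hC D hD hCD
    rw [Finset.not_disjoint_iff]
    obtain ⟨v, hv⟩ := (hB D hD).2.2 C hC
    rw [mem_inter] at hv
    refine ⟨φ v, mem_image_of_mem _ hv.1, ?_⟩
    rw [mem_erase]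
    refine ⟨?_, mem_image_of_mem _ hv.2⟩
    intro h1
    have h2 : u D ∈ C := by rw [← h1]; exact (hφ C hC v).2 hv.1
    exact hCD ((mem_priv.1 (hu D hD)).2 C hC h2)

end Pool.Agent.H416Sens
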